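import Pool.Agent.W280.HP.Eval

/-!
Project HP: numerical facts on the radial functions `G N`, `G1 N` for `N = 4, 8, ..., 28`.
-/

set_option autoImplicit false

open Set Filter Topology MeasureTheory

namespace Pool.Agent.W280.HP

open Pool.Agent.W743.HP

/-- The rectangle. -/
theorem rect_A {α : ℝ} (h : α ∈ Icc aL bL) :
    0 ≤ α ∧ α ≤ 25 ∧ (⟨121239, 121242⟩ : Iv).mem 5000 α := by
  obtain ⟨h1, h2⟩ := h
  unfold aL at h1
  unfold bL at h2
  unfold Iv.mem
  norm_num at h1 h2 ⊢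
  refine ⟨?_, ?_, ?_, ?_⟩ <;> linarith

theorem rect_X {x : ℝ} (h : x ∈ Icc xl xh) :
    0 ≤ x ∧ x ≤ 188 / 500 ∧ (⟨187, 188⟩ : Iv).mem 500 x := by
  obtain ⟨h1, h2⟩ := h
  unfold xl at h1
  unfold xh at h2
  unfold Iv.mem
  norm_num at h1 h2 ⊢
  refine ⟨?_, ?_, ?_, ?_⟩ <;> linarith

theorem neg_of {v : ℝ} {k : ℤ} (h : v * scl ≤ (k : ℤ)) (hk : k < 0) : v < 0 := by
  have h1 : ((k : ℤ) : ℝ) < 0 := by exact_mod_cast hk
  have h2 : (0 : ℝ) < scl := by unfold scl; norm_num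
  by_contra hv
  have := mul_nonneg (not_lt.1 hv) h2.le
  linarith

theorem pos_of {v : ℝ} {k : ℤ} (h : ((k : ℤ) : ℝ) ≤ v * scl) (hk : 0 < k) : 0 < v := by
  have h1 : (0 : ℝ) < ((k : ℤ) : ℝ) := by exact_mod_cast hk
  have h2 : (0 : ℝ) < scl := by unfold scl; norm_num
  by_contra hv
  have := mul_nonpos_of_nonpos_of_nonneg (not_lt.1 hv) h2.le
  linarith

theorem r4 : (run 4 5000 500 ⟨121239, 121242⟩ ⟨187, 188⟩ 128).s1.hi + err < 0 := by
  decide +kernel

theorem r0a : 0 < (run 0 5000 (10 ^ 11) ⟨121239, 121239⟩ ⟨37505499152, 37505499152⟩ 128).s1.lo -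
    err := by
  decide +kernel

theorem r4a : (run 4 5000 (10 ^ 11) ⟨121239, 121239⟩ ⟨37505499152, 37505499152⟩ 128).s0.hi +
    err < 0 := by
  decide +kernel

theorem r0b : (run 0 5000 (10 ^ 11) ⟨121242, 121242⟩ ⟨37504824646, 37504824646⟩ 128).s1.hi +
    err < 0 := by
  decide +kernel

theorem r4b : 0 < (run 4 5000 (10 ^ 11) ⟨121242, 121242⟩ ⟨37504824646, 37504824646⟩ 128).s0.lo -
    err := by
  decide +kernel

theorem r8 : ∀ n ∈ Finset.Icc 2 7,
    0 < (run (4 * n) 5000 500 ⟨121239, 121242⟩ ⟨187, 188⟩ 128).s0.lo - err := by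
  decide +kernel

theorem pt (k d : ℕ) (hd : 0 < d) : (⟨k, k⟩ : Iv).mem d ((k : ℝ) / d) := by
  have hd' : (0 : ℝ) < d := by exact_mod_cast hd
  unfold Iv.mem
  rw [div_mul_cancel₀ _ hd'.ne']
  push_cast
  exact ⟨le_refl _, le_refl _⟩

theorem num4 : S_BD → S_REG → S_NUM4 := by
  intro hBD _
  refine ⟨?_, ?_, ?_⟩
  · intro α hα x hx
    obtain ⟨a1, a2, a3⟩ := rect_A hα
    obtain ⟨x1, x2, x3⟩ := rect_X hx
    exact neg_of (eval hBD 4 5000 500 _ _ α x (by norm_num) (by norm_num) a1 a2 x1 x2 a3 x3).2.2.2.1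
      r4
  · have hA : (⟨121239, 121239⟩ : Iv).mem 5000 aL := by
      have := pt 121239 5000 (by norm_num)
      unfold aL
      exact_mod_cast this
    have hX := pt 37505499152 (10 ^ 11) (by norm_num)
    have e1 := eval hBD 0 5000 (10 ^ 11) ⟨121239, 121239⟩ ⟨37505499152, 37505499152⟩ aL
      (((37505499152 : ℕ) : ℝ) / ((10 ^ 11 : ℕ) : ℝ)) (by norm_num) (by norm_num)
      (by unfold aL; norm_num) (by unfold aL; norm_num) (by norm_num) (by norm_num) hA
      (by exact_mod_cast hX)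
    have e2 := eval hBD 4 5000 (10 ^ 11) ⟨121239, 121239⟩ ⟨37505499152, 37505499152⟩ aL
      (((37505499152 : ℕ) : ℝ) / ((10 ^ 11 : ℕ) : ℝ)) (by norm_num) (by norm_num)
      (by unfold aL; norm_num) (by unfold aL; norm_num) (by norm_num) (by norm_num) hA
      (by exact_mod_cast hX)
    refine ⟨_, ?_, pos_of e1.2.2.1 r0a, neg_of e2.2.1 r4a⟩
    unfold xl xh
    norm_num
  · have hA : (⟨121242, 121242⟩ : Iv).mem 5000 bL := by
      have := pt 121242 5000 (by norm_num)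
      unfold bL
      exact_mod_cast this
    have hX := pt 37504824646 (10 ^ 11) (by norm_num)
    have e1 := eval hBD 0 5000 (10 ^ 11) ⟨121242, 121242⟩ ⟨37504824646, 37504824646⟩ bL
      (((37504824646 : ℕ) : ℝ) / ((10 ^ 11 : ℕ) : ℝ)) (by norm_num) (by norm_num)
      (by unfold bL; norm_num) (by unfold bL; norm_num) (by norm_num) (by norm_num) hA
      (by exact_mod_cast hX)
    have e2 := eval hBD 4 5000 (10 ^ 11) ⟨121242, 121242⟩ ⟨37504824646, 37504824646⟩ bL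
      (((37504824646 : ℕ) : ℝ) / ((10 ^ 11 : ℕ) : ℝ)) (by norm_num) (by norm_num)
      (by unfold bL; norm_num) (by unfold bL; norm_num) (by norm_num) (by norm_num) hA
      (by exact_mod_cast hX)
    refine ⟨_, ?_, neg_of e1.2.2.2.1 r0b, pos_of e2.1 r4b⟩
    unfold xl xh
    norm_num

theorem num8 : S_BD → S_REG → S_NUM8 := by
  intro hBD _ α hα x hx n hn
  obtain ⟨a1, a2, a3⟩ := rect_A hα
  obtain ⟨x1, x2, x3⟩ := rect_X hx
  exact pos_of (eval hBD (4 * n) 5000 500 _ _ α x (by norm_num) (by norm_num) a1 a2 x1 x2 a3 x3).1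
    (r8 n hn)


end Pool.Agent.W280.HP
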