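import Pool.Agent.W743.HP.Stm

/-!
Project HP: rigorous evaluation of the radial functions `G N`, `G1 N`, `G2 N` on rectangles by integer
interval arithmetic.
-/

set_option autoImplicit false

open Set Filter Topology MeasureTheory

namespace Pool.Agent.W280.HP

open Pool.Agent.W743.HP

/-- An interval with integer end points (scaled by a common factor). -/
structure Iv where
  /-- Lower end point. -/
  lo : ℤ
  /-- Upper end point. -/
  hi : ℤ

/-- `v` lies in the interval `I` scaled by `S`. -/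
def Iv.mem (S : ℕ) (I : Iv) (v : ℝ) : Prop := (I.lo : ℝ) ≤ v * S ∧ v * S ≤ I.hi

/-- Sum. -/
def Iv.add (I J : Iv) : Iv := ⟨I.lo + J.lo, I.hi + J.hi⟩

/-- Difference. -/
def Iv.sub (I J : Iv) : Iv := ⟨I.lo - J.hi, I.hi - J.lo⟩

/-- Multiple. -/
def Iv.nmul (k : ℕ) (I : Iv) : Iv := ⟨k * I.lo, k * I.hi⟩

/-- Quotient by a natural number. -/
def Iv.ndiv (I : Iv) (m : ℕ) : Iv := ⟨I.lo / m, -((-I.hi) / m)⟩

/-- Product with a nonnegative number, which lies in the interval `P` scaled by `sc`. -/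
def Iv.mulp (I P : Iv) (sc : ℕ) : Iv :=
  ⟨(min (I.lo * P.lo) (I.lo * P.hi)) / sc, -((-(max (I.hi * P.lo) (I.hi * P.hi))) / sc)⟩

theorem Iv.mem_add {S : ℕ} {I J : Iv} {v w : ℝ} (h1 : I.mem S v) (h2 : J.mem S w) :
    (I.add J).mem S (v + w) := by
  unfold Iv.mem Iv.add at *
  push_cast
  constructor <;> linarith [h1.1, h1.2, h2.1, h2.2]

theorem Iv.mem_sub {S : ℕ} {I J : Iv} {v w : ℝ} (h1 : I.mem S v) (h2 : J.mem S w) :
    (I.sub J).mem S (v - w) := by
  unfold Iv.mem Iv.sub at *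
  push_cast
  constructor <;> linarith [h1.1, h1.2, h2.1, h2.2]

theorem Iv.mem_nmul {S : ℕ} {I : Iv} {v : ℝ} (k : ℕ) (h1 : I.mem S v) :
    (I.nmul k).mem S (k * v) := by
  unfold Iv.mem Iv.nmul at *
  push_cast
  have hk : (0 : ℝ) ≤ k := Nat.cast_nonneg _
  constructor
  · nlinarith [mul_le_mul_of_nonneg_left h1.1 hk]
  · nlinarith [mul_le_mul_of_nonneg_left h1.2 hk]

theorem floor_le {a : ℤ} {m : ℕ} (hm : 0 < m) : ((a / m : ℤ) : ℝ) ≤ (a : ℝ) / m := by
  have hm' : (0 : ℝ) < m := by exact_mod_cast hm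
  rw [le_div_iff₀ hm']
  have h := Int.ediv_mul_le a (b := (m : ℤ)) (by exact_mod_cast hm.ne')
  exact_mod_cast h

theorem le_ceil {a : ℤ} {m : ℕ} (hm : 0 < m) : (a : ℝ) / m ≤ ((-((-a) / m) : ℤ) : ℝ) := by
  have h := floor_le (a := -a) hm
  push_cast at h ⊢
  rw [neg_div] at h
  linarith

theorem Iv.mem_ndiv {S : ℕ} {I : Iv} {v : ℝ} {m : ℕ} (hm : 0 < m) (h1 : I.mem S v) :
    (I.ndiv m).mem S (v / m) := by
  unfold Iv.mem Iv.ndiv at *
  have hm' : (0 : ℝ) < m := by exact_mod_cast hm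
  constructor
  · refine (floor_le hm).trans ?_
    rw [div_mul_eq_mul_div]
    exact div_le_div_of_nonneg_right h1.1 hm'.le
  · refine le_trans ?_ (le_ceil hm)
    rw [div_mul_eq_mul_div]
    exact div_le_div_of_nonneg_right h1.2 hm'.le

theorem lin_min (a : ℤ) (p q : ℤ) (t : ℝ) (h1 : (p : ℝ) ≤ t) (h2 : t ≤ q) :
    ((min (a * p) (a * q) : ℤ) : ℝ) ≤ a * t := by
  push_cast
  rcases le_total (0 : ℝ) a with h | h
  · exact (min_le_left _ _).trans (mul_le_mul_of_nonneg_left h1 h)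
  · exact (min_le_right _ _).trans (mul_le_mul_of_nonpos_left h2 h)

theorem lin_max (a : ℤ) (p q : ℤ) (t : ℝ) (h1 : (p : ℝ) ≤ t) (h2 : t ≤ q) :
    (a : ℝ) * t ≤ ((max (a * p) (a * q) : ℤ) : ℝ) := by
  push_cast
  rcases le_total (0 : ℝ) a with h | h
  · exact le_trans (mul_le_mul_of_nonneg_left h2 h) (le_max_right _ _)
  · exact le_trans (mul_le_mul_of_nonpos_left h1 h) (le_max_left _ _)

theorem Iv.mem_mulp {S sc : ℕ} {I P : Iv} {v w : ℝ} (hsc : 0 < sc) (hw : 0 ≤ w)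
    (h1 : I.mem S v) (h2 : P.mem sc w) : (I.mulp P sc).mem S (v * w) := by
  unfold Iv.mem Iv.mulp at *
  have hsc' : (0 : ℝ) < sc := by exact_mod_cast hsc
  have hw' : 0 ≤ w * sc := by positivity
  have e : v * w * S = (v * S) * (w * sc) / sc := by field_simp
  rw [e]
  constructor
  · refine (floor_le hsc).trans (div_le_div_of_nonneg_right ?_ hsc'.le)
    exact (lin_min _ _ _ _ h2.1 h2.2).trans (mul_le_mul_of_nonneg_right h1.1 hw')
  · refine le_trans (div_le_div_of_nonneg_right ?_ hsc'.le) (le_ceil hsc)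
    exact le_trans (mul_le_mul_of_nonneg_right h1.2 hw') (lin_max _ _ _ _ h2.1 h2.2)

/-- The scale. -/
def scl : ℕ := 10 ^ 40

/-- The state of the evaluation. -/
structure St where
  /-- Coefficient `c`. -/
  c : Iv
  /-- The number `d`. -/
  d : Iv
  /-- The number `D`. -/
  D : Iv
  /-- The power of `x`. -/
  p : Iv
  /-- Partial sum of `G`. -/
  s0 : Iv
  /-- Partial sum of `G1`. -/
  s1 : Iv
  /-- Partial sum of `G2`. -/
  s2 : Iv

/-- One step; `s2` is one step behind. -/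
def step (N ad xd : ℕ) (A X : Iv) (j : ℕ) (s : St) : St :=
  let D' := s.D.sub (s.c.mulp A ad)
  let d' := s.d.add D'
  let c' := d'.ndiv ((j + 1) * (j + 1 + N))
  let p' := s.p.mulp X xd
  ⟨c', d', D', p', s.s0.add (s.c.mulp s.p scl), s.s1.add ((c'.nmul (j + 1)).mulp s.p scl),
    s.s2.add ((c'.nmul ((j + 1) * j)).mulp s.p scl)⟩

/-- The evaluation. -/
def run (N ad xd : ℕ) (A X : Iv) : ℕ → St
  | 0 => ⟨⟨scl, scl⟩, ⟨0, 0⟩, ⟨0, 0⟩, ⟨scl, scl⟩, ⟨0, 0⟩, ⟨0, 0⟩, ⟨0, 0⟩⟩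
  | j + 1 => step N ad xd A X j (run N ad xd A X j)

/-- The invariant of the evaluation. -/
theorem run_spec (N ad xd : ℕ) (A X : Iv) (α x : ℝ) (had : 0 < ad) (hxd : 0 < xd)
    (hα0 : 0 ≤ α) (hx0 : 0 ≤ x) (hA : A.mem ad α) (hX : X.mem xd x) (j : ℕ) :
    (run N ad xd A X j).c.mem scl (cf N α j).1 ∧ (run N ad xd A X j).d.mem scl (cf N α j).2.1 ∧
    (run N ad xd A X j).D.mem scl (cf N α j).2.2 ∧ (run N ad xd A X j).p.mem scl (x ^ j) ∧
    (run N ad xd A X j).s0.mem scl (∑ i ∈ Finset.range j, c N α i * x ^ i) ∧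
    (run N ad xd A X j).s1.mem scl (∑ i ∈ Finset.range j, ((i : ℝ) + 1) * c N α (i + 1) * x ^ i) ∧
    (run N ad xd A X j).s2.mem scl
      (∑ i ∈ Finset.range j, ((i : ℝ) + 1) * i * c N α (i + 1) * x ^ i) := by
  induction j with
  | zero =>
    simp only [run, cf, pow_zero, Finset.range_zero, Finset.sum_empty]
    refine ⟨?_, ?_, ?_, ?_, ?_, ?_, ?_⟩ <;> simp [Iv.mem]
  | succ j ih =>
    obtain ⟨h1, h2, h3, h4, h5, h6, h7⟩ := ih
    have hs : 0 < scl := by norm_num [scl]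
    have hD : ((run N ad xd A X j).D.sub ((run N ad xd A X j).c.mulp A ad)).mem scl
        ((cf N α j).2.2 - α * (cf N α j).1) := by
      rw [mul_comm]
      exact Iv.mem_sub h3 (Iv.mem_mulp had hα0 h1 hA)
    have hd := Iv.mem_add h2 hD
    have hm : 0 < (j + 1) * (j + 1 + N) := by positivity
    have hc := Iv.mem_ndiv hm hd
    have hc' : (((run N ad xd A X j).d.add ((run N ad xd A X j).D.sub
        ((run N ad xd A X j).c.mulp A ad))).ndiv ((j + 1) * (j + 1 + N))).mem scl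
        (c N α (j + 1)) := by
      have e : c N α (j + 1) = ((cf N α j).2.1 + ((cf N α j).2.2 - α * (cf N α j).1)) /
          (((j + 1) * (j + 1 + N) : ℕ) : ℝ) := by
        simp only [c, cf]
        push_cast
        rfl
      rw [e]
      exact hc
    have hxj : 0 ≤ x ^ j := by positivity
    refine ⟨?_, ?_, ?_, ?_, ?_, ?_, ?_⟩
    · exact hc'
    · exact hd
    · exact hD
    · rw [pow_succ]
      exact Iv.mem_mulp hxd hx0 h4 hX
    · rw [Finset.sum_range_succ]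
      exact Iv.mem_add h5 (Iv.mem_mulp hs hxj h1 h4)
    · rw [Finset.sum_range_succ]
      refine Iv.mem_add h6 (Iv.mem_mulp hs hxj ?_ h4)
      have := Iv.mem_nmul (j + 1) hc'
      push_cast at this
      exact this
    · rw [Finset.sum_range_succ]
      refine Iv.mem_add h7 (Iv.mem_mulp hs hxj ?_ h4)
      have := Iv.mem_nmul ((j + 1) * j) hc'
      push_cast at this
      exact this

/-- A common majorant of the coefficients of the three series. -/
noncomputable def W (j : ℕ) : ℝ := ((j : ℝ) + 1) * (26 + j) * ((25 + j).choose j : ℕ)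

theorem W_step (j : ℕ) (hj : 128 ≤ j) : W (j + 1) ≤ 5 / 4 * W j := by
  have h := Nat.add_one_mul_choose_eq (25 + j) j
  have h' : ((26 + j : ℕ) : ℝ) * ((25 + j).choose j : ℕ) =
      ((25 + (j + 1)).choose (j + 1) : ℕ) * ((j : ℝ) + 1) := by
    have e2 : 25 + (j + 1) = 26 + j := by omega
    have e : 25 + j + 1 = 26 + j := by omega
    rw [e] at h
    rw [e2]
    exact_mod_cast h
  unfold W
  push_cast at h' ⊢
  have hj' : (128 : ℝ) ≤ j := by exact_mod_cast hj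
  have hB : (0 : ℝ) ≤ ((25 + j).choose j : ℕ) := Nat.cast_nonneg _
  have hj1 : (0 : ℝ) < (j : ℝ) + 1 := by positivity
  have e3 : (((25 + (j + 1)).choose (j + 1) : ℕ) : ℝ) =
      (26 + j) * ((25 + j).choose j : ℕ) / ((j : ℝ) + 1) := by
    rw [eq_div_iff hj1.ne']
    linarith
  rw [e3]
  rw [mul_div_assoc', div_le_iff₀ hj1]
  have key : ((j : ℝ) + 1 + 1) * (26 + (j + 1)) ≤ 5 / 4 * (j + 1) * (j + 1) := by nlinarith
  have := mul_le_mul_of_nonneg_right key (mul_nonneg (by positivity : (0 : ℝ) ≤ 26 + j) hB)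
  nlinarith [this]

theorem W_nonneg (j : ℕ) : 0 ≤ W j := by unfold W; positivity

theorem W_le (i : ℕ) : W (i + 128) ≤ W 128 * (5 / 4) ^ i := by
  induction i with
  | zero => simp
  | succ i ih =>
    have := W_step (i + 128) (by omega)
    rw [show i + 1 + 128 = (i + 128) + 1 by ring, pow_succ]
    linarith

set_option maxRecDepth 100000 in
theorem choose_153 : (25 + 128).choose 128 = 33542822544803763231686290281 := by
  rw [Nat.choose_eq_factorial_div_factorial (by norm_num)]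
  decide +kernel

theorem W128 : W 128 * (188 / 500) ^ 128 ≤ 1 / 10 ^ 16 := by
  unfold W
  rw [choose_153]
  push_cast
  norm_num

theorem tail_bound (t : ℕ → ℝ) (x : ℝ) (hx0 : 0 ≤ x) (hx : x ≤ 188 / 500)
    (ht : ∀ j, |t j| ≤ W j * x ^ j) :
    Summable t ∧ |∑' j, t j - ∑ j ∈ Finset.range 128, t j| ≤ 1 / 10 ^ 15 := by
  have hg : ∀ i, ‖t (i + 128)‖ ≤ 1 / 10 ^ 16 * (47 / 100) ^ i := by
    intro i
    rw [Real.norm_eq_abs]
    refine (ht _).trans ?_
    have h1 : x ^ (i + 128) ≤ (188 / 500 : ℝ) ^ (i + 128) := pow_le_pow_left₀ hx0 hx _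
    have hW := W_nonneg 128
    have hnn : 0 ≤ W 128 * (5 / 4) ^ i := mul_nonneg hW (by positivity)
    have hxn : 0 ≤ x ^ (i + 128) := pow_nonneg hx0 _
    have h2 : W (i + 128) * x ^ (i + 128) ≤ (W 128 * (5 / 4) ^ i) * (188 / 500 : ℝ) ^ (i + 128) :=
      mul_le_mul (W_le i) h1 hxn hnn
    have h3 : (W 128 * (5 / 4) ^ i) * (188 / 500 : ℝ) ^ (i + 128) =
        (W 128 * (188 / 500) ^ 128) * (5 / 4 * (188 / 500)) ^ i := by
      rw [mul_pow (5 / 4 : ℝ), pow_add]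
      generalize W 128 = w
      generalize (188 / 500 : ℝ) ^ 128 = u
      ring
    have h4 : (5 / 4 * (188 / 500) : ℝ) = 47 / 100 := by norm_num
    rw [h3, h4] at h2
    exact h2.trans (mul_le_mul_of_nonneg_right W128 (by positivity))
  have hgs : HasSum (fun i : ℕ => 1 / 10 ^ 16 * (47 / 100 : ℝ) ^ i) (1 / 10 ^ 16 * (1 - 47 / 100)⁻¹) :=
    (hasSum_geometric_of_lt_one (by norm_num) (by norm_num)).mul_left _
  have hs1 : Summable fun i => t (i + 128) := Summable.of_norm_bounded hgs.summable hg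
  have hs : Summable t := (summable_nat_add_iff 128).1 hs1
  refine ⟨hs, ?_⟩
  have h2 := hs.sum_add_tsum_nat_add 128
  have h3 := tsum_of_norm_bounded hgs hg
  rw [← h2, add_sub_cancel_left, ← Real.norm_eq_abs]
  refine h3.trans ?_
  norm_num

theorem x_mul_G2 (N : ℕ) (α x : ℝ)
    (hs : Summable fun j : ℕ => ((j : ℝ) + 1) * j * c N α (j + 1) * x ^ j) :
    x * G2 N α x = ∑' j : ℕ, ((j : ℝ) + 1) * j * c N α (j + 1) * x ^ j := by
  rw [hs.tsum_eq_zero_add]
  simp only [Nat.cast_zero, mul_zero, zero_mul, zero_add]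
  rw [G2, ← tsum_mul_left]
  refine tsum_congr fun j => ?_
  push_cast
  ring

/-- The error of the tails, scaled. -/
def err : ℤ := 10 ^ 25

/-- The evaluation theorem. -/
theorem eval (hBD : S_BD) (N ad xd : ℕ) (A X : Iv) (α x : ℝ) (had : 0 < ad) (hxd : 0 < xd)
    (hα0 : 0 ≤ α) (hα : α ≤ 25) (hx0 : 0 ≤ x) (hx : x ≤ 188 / 500) (hA : A.mem ad α)
    (hX : X.mem xd x) :
    (((run N ad xd A X 128).s0.lo - err : ℤ) : ℝ) ≤ G N α x * scl ∧
    G N α x * scl ≤ (((run N ad xd A X 128).s0.hi + err : ℤ) : ℝ) ∧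
    (((run N ad xd A X 128).s1.lo - err : ℤ) : ℝ) ≤ G1 N α x * scl ∧
    G1 N α x * scl ≤ (((run N ad xd A X 128).s1.hi + err : ℤ) : ℝ) ∧
    (((run N ad xd A X 128).s2.lo - err : ℤ) : ℝ) ≤ x * G2 N α x * scl ∧
    x * G2 N α x * scl ≤ (((run N ad xd A X 128).s2.hi + err : ℤ) : ℝ) := by
  obtain ⟨-, -, -, -, h0, h1, h2⟩ := run_spec N ad xd A X α x had hxd hα0 hx0 hA hX 128
  have hc : ∀ j, |c N α j| ≤ ((25 + j).choose j : ℕ) := fun j =>
    (hBD.1 N α 25 hα0 (by exact_mod_cast hα) j).1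
  have hc' : ∀ j : ℕ, ((j : ℝ) + 1) * |c N α (j + 1)| ≤ (26 + j) * ((25 + j).choose j : ℕ) := by
    intro j
    have h := Nat.add_one_mul_choose_eq (25 + j) j
    have e : 25 + j + 1 = 25 + (j + 1) := by omega
    rw [e] at h
    have h' : (((25 + (j + 1) : ℕ) : ℝ)) * ((25 + j).choose j : ℕ) =
        ((25 + (j + 1)).choose (j + 1) : ℕ) * ((j : ℝ) + 1) := by exact_mod_cast h
    have h3 := mul_le_mul_of_nonneg_left (hc (j + 1)) (by positivity : (0 : ℝ) ≤ (j : ℝ) + 1)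
    push_cast at h'
    refine h3.trans (le_of_eq ?_)
    linarith
  have hB : ∀ j : ℕ, (0 : ℝ) ≤ ((25 + j).choose j : ℕ) := fun j => Nat.cast_nonneg _
  have t0 := tail_bound (fun j => c N α j * x ^ j) x hx0 hx (fun j => by
    rw [abs_mul, abs_of_nonneg (by positivity : 0 ≤ x ^ j)]
    refine mul_le_mul_of_nonneg_right ((hc j).trans ?_) (by positivity)
    unfold W
    have hj : (0 : ℝ) ≤ j := Nat.cast_nonneg _
    nlinarith [hB j, mul_nonneg hj (hB j), mul_nonneg (mul_nonneg hj hj) (hB j)])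
  have t1 := tail_bound (fun j => ((j : ℝ) + 1) * c N α (j + 1) * x ^ j) x hx0 hx (fun j => by
    rw [abs_mul, abs_of_nonneg (by positivity : 0 ≤ x ^ j), abs_mul,
      abs_of_nonneg (by positivity : (0 : ℝ) ≤ (j : ℝ) + 1)]
    refine mul_le_mul_of_nonneg_right ((hc' j).trans ?_) (by positivity)
    unfold W
    have hj : (0 : ℝ) ≤ j := Nat.cast_nonneg _
    nlinarith [hB j, mul_nonneg hj (hB j), mul_nonneg (mul_nonneg hj hj) (hB j)])
  have t2 := tail_bound (fun j => ((j : ℝ) + 1) * j * c N α (j + 1) * x ^ j) x hx0 hx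
    (fun j => by
    rw [abs_mul, abs_of_nonneg (by positivity : 0 ≤ x ^ j), abs_mul, abs_mul,
      abs_of_nonneg (by positivity : (0 : ℝ) ≤ (j : ℝ) + 1),
      abs_of_nonneg (by positivity : (0 : ℝ) ≤ (j : ℝ))]
    have hj : (0 : ℝ) ≤ j := Nat.cast_nonneg _
    have h3 := mul_le_mul_of_nonneg_left (hc' j) hj
    refine mul_le_mul_of_nonneg_right ?_ (by positivity)
    unfold W
    nlinarith [hB j, mul_nonneg hj (hB j), mul_nonneg (mul_nonneg hj hj) (hB j)])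
  have g2 := x_mul_G2 N α x t2.1
  have b0 := abs_le.1 t0.2
  have b1 := abs_le.1 t1.2
  have b2 := abs_le.1 t2.2
  rw [← g2] at b2
  have e0 : (∑' j, c N α j * x ^ j) = G N α x := rfl
  have e1 : (∑' j : ℕ, ((j : ℝ) + 1) * c N α (j + 1) * x ^ j) = G1 N α x := rfl
  rw [e0] at b0
  rw [e1] at b1
  have hsc : (scl : ℝ) = 10 ^ 40 := by unfold scl; norm_num
  have herr : ((err : ℤ) : ℝ) = 10 ^ 25 := by unfold err; norm_num
  unfold Iv.mem at h0 h1 h2
  rw [hsc] at h0 h1 h2 ⊢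
  push_cast
  rw [herr]
  have q0 : ∀ (g s : ℝ) (l u : ℝ), l ≤ s * 10 ^ 40 ∧ s * 10 ^ 40 ≤ u →
      -(1 / 10 ^ 15) ≤ g - s ∧ g - s ≤ 1 / 10 ^ 15 →
      l - 10 ^ 25 ≤ g * 10 ^ 40 ∧ g * 10 ^ 40 ≤ u + 10 ^ 25 := by
    intro g s l u h h'
    have e : g * 10 ^ 40 = s * 10 ^ 40 + (g - s) * 10 ^ 40 := by ring
    have k1 := mul_le_mul_of_nonneg_right h'.1 (by positivity : (0 : ℝ) ≤ 10 ^ 40)
    have k2 := mul_le_mul_of_nonneg_right h'.2 (by positivity : (0 : ℝ) ≤ 10 ^ 40)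
    norm_num at k1 k2 e h ⊢
    constructor <;> linarith [h.1, h.2]
  exact ⟨(q0 _ _ _ _ h0 b0).1, (q0 _ _ _ _ h0 b0).2, (q0 _ _ _ _ h1 b1).1,
    (q0 _ _ _ _ h1 b1).2, (q0 _ _ _ _ h2 b2).1, (q0 _ _ _ _ h2 b2).2⟩

end Pool.Agent.W280.HP
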